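import Pool.Agent.Helper63.XR.StA

/-!
# Project XR: module SPF
-/

set_option autoImplicit false

namespace Pool.Agent.Helper79.XR

open Finset Pool.Agent.Helper63.XR

theorem hSPF : StSpf := by
  intro P _ _ k b a g S _ _ t lam Bad l hlam hlk hBad
  classical
  have hlam0 : (0 : ℝ) < lam := by linarith
  -- the intersection of the children with Bad
  set H : S × P → Finset (S × P) := fun j => ((g.ch j.2).image fun c => (j.1, c)) ∩ Bad with hH
  -- lower bound
  have hlow : ∀ j ∈ Few g t lam Bad l, (a (l + 1) : ℝ) * ((lam - 1) / lam) ≤ ((H j).card : ℝ) := by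
    intro j hj
    have hj' := hj
    unfold Few at hj'
    rw [Finset.mem_filter] at hj'
    obtain ⟨hjA, hjn⟩ := hj'
    have hlev : g.lev j.2 = l := by
      have := hjA
      unfold Al at this
      rw [Finset.mem_filter] at this
      exact this.2.2
    have hcard : (((g.ch j.2).image fun c => (j.1, c)) : Finset (S × P)).card = a (l + 1) := by
      rw [Finset.card_image_of_injective]
      · have := g.card_ch j.2 (by omega)
        rw [this, hlev]
      · intro x y hxy
        exact (Prod.mk.inj hxy).2
    have hsum : (H j).card + (Gs g Bad j).card = a (l + 1) := by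
      rw [← hcard]
      unfold Gs
      rw [hH]
      exact Finset.card_inter_add_card_sdiff _ _
    have hsumR : ((H j).card : ℝ) + ((Gs g Bad j).card : ℝ) = (a (l + 1) : ℝ) := by
      exact_mod_cast hsum
    push Not at hjn
    have h1 : (a (l + 1) : ℝ) * ((lam - 1) / lam) = (a (l + 1) : ℝ) - (a (l + 1) : ℝ) / lam := by
      field_simp
    rw [h1]
    have h2 : ((Gs g Bad j).card : ℝ) ≤ (a (l + 1) : ℝ) / lam := by
      rw [le_div_iff₀ hlam0]
      linarith
    linarith
  -- upper bound
  have hup : ∑ j ∈ Few g t lam Bad l, (H j).card ≤ a l * Bad.card := by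
    have e1 : ∑ j ∈ Few g t lam Bad l, (H j).card =
        ∑ j ∈ Few g t lam Bad l, ∑ u ∈ Bad, (if u ∈ H j then 1 else 0) := by
      apply Finset.sum_congr rfl
      intro j _
      rw [← Finset.card_filter]
      congr 1
      ext u
      rw [Finset.mem_filter]
      constructor
      · intro hu
        exact ⟨(Finset.mem_inter.mp hu).2, hu⟩
      · intro hu
        exact hu.2
    rw [e1, Finset.sum_comm]
    have e2 : ∀ u ∈ Bad, ∑ j ∈ Few g t lam Bad l, (if u ∈ H j then 1 else 0) ≤ a l := by
      intro u hu
      rw [← Finset.card_filter]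
      have hlev : g.lev u.2 = l + 1 := by
        have := hBad hu
        unfold Al at this
        rw [Finset.mem_filter] at this
        exact this.2.2
      have hsub : (Few g t lam Bad l).filter (fun j => u ∈ H j) ⊆
          (univ.filter fun v => u.2 ∈ g.ch v).image (fun v => (u.1, v)) := by
        intro j hj
        rw [Finset.mem_filter] at hj
        have h1 := (Finset.mem_inter.mp hj.2).1
        rw [Finset.mem_image] at h1
        obtain ⟨c, hc, hcu⟩ := h1
        rw [Finset.mem_image]
        refine ⟨j.2, ?_, ?_⟩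
        · rw [Finset.mem_filter]
          refine ⟨Finset.mem_univ _, ?_⟩
          rw [← hcu]
          exact hc
        · rw [← hcu]
      have h3 := g.card_par u.2
      rw [hlev] at h3
      calc ((Few g t lam Bad l).filter (fun j => u ∈ H j)).card
          ≤ ((univ.filter fun v => u.2 ∈ g.ch v).image (fun v => (u.1, v))).card :=
            Finset.card_le_card hsub
        _ ≤ (univ.filter fun v => u.2 ∈ g.ch v).card := Finset.card_image_le
        _ ≤ a l := by simpa using h3
    calc ∑ u ∈ Bad, ∑ j ∈ Few g t lam Bad l, (if u ∈ H j then 1 else 0)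
        ≤ ∑ u ∈ Bad, a l := Finset.sum_le_sum e2
      _ = a l * Bad.card := by
        rw [Finset.sum_const, smul_eq_mul, mul_comm]
  have hupR : ∑ j ∈ Few g t lam Bad l, ((H j).card : ℝ) ≤ (a l : ℝ) * (Bad.card : ℝ) := by
    exact_mod_cast hup
  calc ((Few g t lam Bad l).card : ℝ) * (a (l + 1) * ((lam - 1) / lam))
      = ∑ j ∈ Few g t lam Bad l, ((a (l + 1) : ℝ) * ((lam - 1) / lam)) := by
        rw [Finset.sum_const, nsmul_eq_mul]
    _ ≤ ∑ j ∈ Few g t lam Bad l, ((H j).card : ℝ) := Finset.sum_le_sum hlow
    _ ≤ (a l : ℝ) * (Bad.card : ℝ) := hupR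

end Pool.Agent.Helper79.XR
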